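import Pool.Agent.Lib.MP_7e112f_co.Main

/-!
# MP_7e112f_co: every simple polygon with `n` vertices is covered by at most `(5 n + 4) / 17` of its
edges

The definitions (`SimplePolygon`, `edge`, `curve`, `region`) are in
`Pool.Agent.Lib.MP_7e112f_co.Defs`.
-/

open MP7e112f

/-- Let `p 0, …, p (n-1)`, `n ≥ 3`, be the vertices of a simple polygon. Some set of at most
`(5 n + 4) / 17` edges covers the polygon: every point `y` of the polygon is visible, inside the
polygon, from a point `x` of an edge of the set. -/
theorem Pool.Agent.Results.MP_7e112f_co.FiveSeventeenths.result (n : ℕ) [NeZero n] (hn : 3 ≤ n)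
    (p : Fin n → ℂ) (hp : SimplePolygon p) :
    ∃ E : Finset (Fin n), 17 * E.card ≤ 5 * n + 4 ∧
      ∀ y ∈ region p, ∃ i ∈ E, ∃ x ∈ edge p i, segment ℝ x y ⊆ region p :=
  edge_guards n hn p hp
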