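import Pool.Agent.Lib.MP_7e112f_co_E.MainE

/-!
# MP_7e112f_co: a simple polygon with `n` vertices which has a triangulation with `e` ears is covered
by at most `(n + 2 e - 2) / 5` of its edges

The definitions `SimplePolygon`, `edge`, `curve`, `region` are in `Pool.Agent.Lib.MP_7e112f_co.Defs`,
and `IsTriangulation`, `ears` are in `Pool.Agent.Lib.MP_7e112f_co_E.DefsE`.
-/

open MP7e112f

/-- Let `p 0, …, p (n-1)`, `n ≥ 4`, be the vertices of a simple polygon, and let `D` be a
triangulation of it. Some set `E` of edges with `5 |E| + 2 ≤ n + 2 e`, where `e` is the number of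
ears of `D`, covers the polygon: every point `y` of the polygon is visible, inside the polygon, from
a point `x` of an edge of the set. -/
theorem Pool.Agent.Results.MP_7e112f_co.TriangulationEars.result (n : ℕ) [NeZero n] (hn : 4 ≤ n)
    (p : Fin n → ℂ) (hp : SimplePolygon p) (D : Finset (Sym2 (Fin n)))
    (hD : IsTriangulation p D) :
    ∃ E : Finset (Fin n), 5 * E.card + 2 ≤ n + 2 * ears D ∧
      ∀ y ∈ region p, ∃ i ∈ E, ∃ x ∈ edge p i, segment ℝ x y ⊆ region p :=
  edge_guards_ears n hn p hp D hD
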